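import Pool.Agent.H5.PW.Main

/-!
# The Kakeya maximal function on superpositions of plane waves

Let `(Ω, P)` be an s-finite measure space, `ν ω` (`ω ∈ Ω`) unit vectors of `ℝⁿ` depending
measurably on `ω`, and `g ω : ℝ → [0, ∞]` functions of one variable such that `g ω s` is measurable
in `(ω, s)`.  The function

  `F x = ∫ g ω ⟨x, ν ω⟩ dP ω`

is a superposition of plane waves: `x ↦ g ω ⟨x, ν ω⟩` is constant on the hyperplanes orthogonal to
`ν ω`.  There is no condition on `P` and on `ν`, and none on the dependence of `g ω` on `ω`.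

Theorem.  For every `n` and every `η > 0` there is a constant `C`, depending on `n` and `η` only, such
that for all integers `p ≥ 1`, all `0 < δ < 1`, all superpositions `F` of plane waves, all sets `K`
and all measurable functions `f` that vanish outside `K` and satisfy `|f| ≤ F` on `K`

  `∫ (f^*_δ)^p dσ ≤ (C (1 + log (1 / δ)))^p ∫_{K_η} F^p dx`,

where `K_η` is the open `η`-neighbourhood of `K` and `f^*_δ` is the Kakeya maximal function of the
problem.

Idea of the proof.  Split the tubes into tubes of length `r = min (1, η / 12)`, and the plane waves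
according to the size `2^(-k)` of `|⟨e, ν ω⟩|`; `O (1 + log (1 / δ))` sizes matter.  On a tube of
direction `e` and centre `a` the average of a plane wave of this size is at most a constant times
`φ (a, ω)`, the average of `g ω` over the interval of radius `5 θ` about `⟨a, ν ω⟩`, `θ = 2^(-k) r`.
If `|e| ≤ r` is a multiple of the direction then `|⟨e, ν ω⟩| ≤ θ`, so that `φ (a, ω) ≤ ψ (a + e, ω)`
with the intervals of radius `6 θ` in the definition of `ψ`.  The set of the `e` with this property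
does not depend on `a`.  This allows one to expand the power `p` of the supremum over `a` (`core`):
for `ω₁, …, ω_p` let `L` be the set of the vectors `e` which are near to all the hyperplanes
orthogonal to the `ν ω_i`; then `|L| sup_a ∏ φ (a, ω_i) ≤ ∫ ∏ ψ (x, ω_i) dx`.
-/

open MeasureTheory Metric Set
open scoped ENNReal NNReal Pointwise

namespace Pool.Agent.Results.MP_5168f5_an.PlaneWaves

universe u

/-- The tube of length one and radius `δ` with axis direction `e` and centre `a`. -/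
def tube {n : ℕ} (δ : ℝ) (e a : EuclideanSpace ℝ (Fin n)) : Set (EuclideanSpace ℝ (Fin n)) :=
  {y | |inner ℝ (y - a) e| ≤ 1 / 2 ∧ ‖(y - a) - (inner ℝ (y - a) e : ℝ) • e‖ ≤ δ}

/-- The Kakeya maximal function, with values in `[0, ∞]`. -/
noncomputable def kakeyaMax {n : ℕ} (δ : ℝ) (f : EuclideanSpace ℝ (Fin n) → ℝ)
    (e : EuclideanSpace ℝ (Fin n)) : ℝ≥0∞ :=
  ⨆ a : EuclideanSpace ℝ (Fin n),
    (volume (tube δ e a))⁻¹ * ∫⁻ y in tube δ e a, ‖f y‖ₑ

/-- The surface measure of the unit sphere. -/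
noncomputable def surf (n : ℕ) : Measure (sphere (0 : EuclideanSpace ℝ (Fin n)) 1) :=
  (volume : Measure (EuclideanSpace ℝ (Fin n))).toSphere

/-- The superposition `∫ g ω ⟨x, ν ω⟩ dP ω` of plane waves, with values in `[0, ∞]`. -/
noncomputable def superposition {n : ℕ} {Ω : Type u} [MeasurableSpace Ω] (P : Measure Ω)
    (ν : Ω → EuclideanSpace ℝ (Fin n)) (g : Ω → ℝ → ℝ≥0∞) (x : EuclideanSpace ℝ (Fin n)) : ℝ≥0∞ :=
  ∫⁻ ω, g ω (inner ℝ x (ν ω)) ∂P

theorem exists_N (δ : ℝ) (hδ : 0 < δ) (hδ1 : δ < 1) :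
    ∃ N : ℕ, 1 ≤ N ∧ (1 / 2 : ℝ) ^ N < δ ∧ (N : ℝ) ≤ 2 * (1 + Real.log (1 / δ)) := by
  have hlog : 0 < Real.log (1 / δ) := Real.log_pos (by rw [lt_div_iff₀ hδ]; linarith)
  have hl2 : (1 / 2 : ℝ) < Real.log 2 := by linarith [Real.log_two_gt_d9]
  set t := Real.log (1 / δ) / Real.log 2 with ht
  have ht0 : 0 ≤ t := by positivity
  refine ⟨⌊t⌋₊ + 1, by omega, ?_, ?_⟩
  · have h1 : t < (⌊t⌋₊ : ℝ) + 1 := Nat.lt_floor_add_one t
    have h2 : Real.log (1 / δ) < ((⌊t⌋₊ : ℝ) + 1) * Real.log 2 := by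
      rw [ht, div_lt_iff₀ (by linarith)] at h1
      exact h1
    have h3 : Real.log (1 / δ) < Real.log ((2 : ℝ) ^ (⌊t⌋₊ + 1)) := by
      rw [Real.log_pow]
      push_cast
      exact h2
    have h4 : 1 / δ < (2 : ℝ) ^ (⌊t⌋₊ + 1) := (Real.log_lt_log_iff (by positivity)
      (by positivity)).1 h3
    rw [one_div_pow]
    rw [div_lt_iff₀ hδ] at h4
    rw [div_lt_iff₀ (by positivity)]
    linarith
  · push_cast
    have h1 : (⌊t⌋₊ : ℝ) ≤ t := Nat.floor_le ht0
    have h2 : t ≤ 2 * Real.log (1 / δ) := by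
      rw [ht, div_le_iff₀ (by linarith)]
      nlinarith
    linarith

theorem result (n : ℕ) (η : ℝ) (hη : 0 < η) :
    ∃ C : ℝ, 0 < C ∧ ∀ (p : ℕ), 1 ≤ p → ∀ δ : ℝ, 0 < δ → δ < 1 →
      ∀ (Ω : Type u) [MeasurableSpace Ω] (P : Measure Ω) [SFinite P]
        (ν : Ω → EuclideanSpace ℝ (Fin n)) (g : Ω → ℝ → ℝ≥0∞),
        Measurable ν → (∀ ω, ‖ν ω‖ = 1) → Measurable (Function.uncurry g) →
      ∀ (K : Set (EuclideanSpace ℝ (Fin n))) (f : EuclideanSpace ℝ (Fin n) → ℝ),
        AEMeasurable f volume → (∀ x ∈ K, ‖f x‖ₑ ≤ superposition P ν g x) →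
        (∀ x, x ∉ K → f x = 0) →
      ∫⁻ e : sphere (0 : EuclideanSpace ℝ (Fin n)) 1,
          kakeyaMax δ f (e : EuclideanSpace ℝ (Fin n)) ^ p ∂(surf n) ≤
        ENNReal.ofReal (C * (1 + Real.log (1 / δ))) ^ p *
          ∫⁻ x in thickening η K, superposition P ν g x ^ p := by
  set r : ℝ := min 1 (η / 12) with hr
  have hr0 : 0 < r := by positivity
  have hr1 : r ≤ 1 := min_le_left _ _
  have hrη : 12 * r ≤ η := by
    have := min_le_right 1 (η / 12)
    linarith
  set c : ℝ := (2 : ℝ) ^ n * (2 ^ n * 2) with hc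
  set D : ℝ := max 1 (n / r ^ n) * (c * (14 * 8 ^ n)) with hD
  have hD0 : 0 < D := by positivity
  refine ⟨2 * D, by positivity, ?_⟩
  intro p hp δ hδ hδ1 Ω _ P _ ν g hν hν1 hg K f hf hK hK0
  obtain ⟨q, rfl⟩ : ∃ q, p = q + 1 := ⟨p - 1, by omega⟩
  obtain ⟨N, hN1, hN2, hN3⟩ := exists_N δ hδ hδ1
  have hrn : (0 : ℝ) < r ^ n := by positivity
  have hδ' : 0 < min δ r := lt_min hδ hr0
  have hN : r * (1 / 2) ^ N < min δ r := by
    refine lt_min ?_ ?_
    · calc r * (1 / 2) ^ N ≤ 1 * (1 / 2) ^ N := by gcongr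
        _ < δ := by rw [one_mul]; exact hN2
    · have h1 : (1 / 2 : ℝ) ^ N < 1 := pow_lt_one₀ (by norm_num) (by norm_num) (by omega)
      calc r * (1 / 2) ^ N < r * 1 := by gcongr
        _ = r := mul_one r
  have hmain := H5.PW.main_est P (volume : Measure (EuclideanSpace ℝ (Fin n))) ν hν hν1
    (Function.uncurry g) hg K (fun x => ‖f x‖ₑ) hf.enorm hK
    (fun x hx => by simp [hK0 x hx]) η r δ (min δ r) hr0 hr1 hrη hδ' (min_le_left _ _)
    (min_le_right _ _) N hN hN1 q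
  rw [finrank_euclideanSpace_fin] at hmain
  set W : ℝ≥0∞ := ∫⁻ x in thickening η K, superposition P ν g x ^ (q + 1) with hW
  set I : ℝ≥0∞ := ∫⁻ e : sphere (0 : EuclideanSpace ℝ (Fin n)) 1,
    kakeyaMax δ f (e : EuclideanSpace ℝ (Fin n)) ^ (q + 1) ∂(surf n) with hI
  have hmain2 : ENNReal.ofReal (r ^ n) * I ≤
      n * (((2 ^ n * (2 ^ n * 2)) * N * (14 * 8 ^ n)) ^ (q + 1) * W) := hmain
  have hR0 : ENNReal.ofReal (r ^ n) ≠ 0 := (ENNReal.ofReal_pos.2 hrn).ne'
  have hRt : ENNReal.ofReal (r ^ n) ≠ ∞ := ENNReal.ofReal_ne_top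
  -- the constants as real numbers
  have hcN : ((2 : ℝ≥0∞) ^ n * (2 ^ n * 2)) * N * (14 * 8 ^ n) =
      ENNReal.ofReal (c * N * (14 * 8 ^ n)) := by
    rw [hc]
    rw [ENNReal.ofReal_mul (by positivity), ENNReal.ofReal_mul (by positivity),
      ENNReal.ofReal_mul (by positivity), ENNReal.ofReal_mul (by positivity),
      ENNReal.ofReal_mul (by positivity), ENNReal.ofReal_pow (by norm_num),
      ENNReal.ofReal_pow (by norm_num), ENNReal.ofReal_natCast]
    norm_num
  rw [hcN] at hmain2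
  have hI2 : I ≤ (ENNReal.ofReal (n / r ^ n) *
      ENNReal.ofReal (c * N * (14 * 8 ^ n)) ^ (q + 1)) * W := by
    have h1 : ENNReal.ofReal (r ^ n) * I ≤ ENNReal.ofReal (r ^ n) *
        ((ENNReal.ofReal (n / r ^ n) * ENNReal.ofReal (c * N * (14 * 8 ^ n)) ^ (q + 1)) * W) := by
      refine hmain2.trans (le_of_eq ?_)
      have h2 : (n : ℝ≥0∞) = ENNReal.ofReal (r ^ n) * ENNReal.ofReal (n / r ^ n) := by
        rw [← ENNReal.ofReal_mul hrn.le, mul_div_cancel₀ _ hrn.ne', ENNReal.ofReal_natCast]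
      rw [h2]
      ring
    exact (ENNReal.mul_le_mul_iff_right hR0 hRt).1 h1
  refine hI2.trans ?_
  refine mul_le_mul' ?_ le_rfl
  have hlog : 0 < Real.log (1 / δ) := Real.log_pos (by rw [lt_div_iff₀ hδ]; linarith)
  rw [← ENNReal.ofReal_pow (by positivity), ← ENNReal.ofReal_mul (by positivity),
    ← ENNReal.ofReal_pow (by positivity)]
  refine ENNReal.ofReal_le_ofReal ?_
  have hA1 : (1 : ℝ) ≤ max 1 (n / r ^ n) := le_max_left _ _
  calc (n : ℝ) / r ^ n * (c * N * (14 * 8 ^ n)) ^ (q + 1)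
      ≤ max 1 (n / r ^ n) ^ (q + 1) * (c * N * (14 * 8 ^ n)) ^ (q + 1) := by
        gcongr
        calc (n : ℝ) / r ^ n ≤ max 1 (n / r ^ n) := le_max_right _ _
          _ ≤ max 1 (n / r ^ n) ^ (q + 1) := le_self_pow₀ hA1 (by omega)
    _ = (D * N) ^ (q + 1) := by
        rw [← mul_pow, hD]
        congr 1
        ring
    _ ≤ (2 * D * (1 + Real.log (1 / δ))) ^ (q + 1) := by
        refine pow_le_pow_left₀ (by positivity) ?_ _
        calc D * N ≤ D * (2 * (1 + Real.log (1 / δ))) := by gcongr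
          _ = 2 * D * (1 + Real.log (1 / δ)) := by ring

end Pool.Agent.Results.MP_5168f5_an.PlaneWaves
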