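import Pool.Agent.H74.TH.PieceWeak

/-!
# A Kakeya maximal inequality for all functions, with the growth of the superlevel sets

Let `n ≥ 3`, `ε > 0` and `m = min (n / 2) 2`.  For `0 < δ < 1` and a function `f` on `ℝⁿ` let
`A (x) ≥ 1` be the least number with

  `|{|f| ≥ |f x| / 2} ∩ B(y, r)| ≤ A (x) δ^(n-m) r^m`  for all points `y` and all `δ ≤ r ≤ 1`.

Then the Kakeya maximal function satisfies, at the critical exponent `n`,

  `∫ (f_δ^*)ⁿ ≤ C δ^(-ε) ∫ |f x|ⁿ min (A (x)^(m-1)) (δ^(-(n-2)/2)) dx`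

with a constant `C` that depends on `n` and `ε` only.

The minimum is the loss against the Kakeya maximal function conjecture.  It is never more than the loss
`δ^(-(n-2)/2)` of Wolff's bound, so that the inequality sharpens the latter for every `f`.  There is
no loss if the superlevel sets of `f` have dimension at most `m` at the scales between `δ` and `1`,
for instance if `f` vanishes outside a set `E` with `|E ∩ B(y, r)| ≤ A δ^(n-t) r^t`, `t ≤ m`
(`m = 2` for `n ≥ 4` and `m = 3 / 2` for `n = 3`): this is the theorem `supports` at the end of the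
file, which treats all `t`.

The proof bounds the number of pairs of meeting tubes by Wolff's hairbrush, with the counting of
Cordoba inside it, localised at the scale where a tube meets a superlevel set most, so that the growth
can be used.  For `n = 3` the directions are first split into caps in which most pairs of tubes
through a point make a large angle, and the geometric mean with the hairbrush bound in such a cap
that does not use the growth is taken.  The bound for the dyadic pieces of `f` is compared with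
Wolff's bound, and the pieces are summed.
-/

open MeasureTheory Metric Set
open scoped ENNReal NNReal

namespace Pool.Agent.Results.MP_5168f5_an.SmallSupports

/-- The tube of length one and radius `δ` with axis direction `e` and centre `a`. -/
def tube {n : ℕ} (δ : ℝ) (e a : EuclideanSpace ℝ (Fin n)) : Set (EuclideanSpace ℝ (Fin n)) :=
  {y | |inner ℝ (y - a) e| ≤ 1 / 2 ∧ ‖(y - a) - (inner ℝ (y - a) e : ℝ) • e‖ ≤ δ}

/-- The Kakeya maximal function, with values in `[0, ∞]`. -/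
noncomputable def kakeyaMax {n : ℕ} (δ : ℝ) (f : EuclideanSpace ℝ (Fin n) → ℝ)
    (e : EuclideanSpace ℝ (Fin n)) : ℝ≥0∞ :=
  ⨆ a : EuclideanSpace ℝ (Fin n),
    (volume (tube δ e a))⁻¹ * ∫⁻ y in tube δ e a, ‖f y‖ₑ

/-- The surface measure of the unit sphere. -/
noncomputable def surf (n : ℕ) : Measure (sphere (0 : EuclideanSpace ℝ (Fin n)) 1) :=
  (volume : Measure (EuclideanSpace ℝ (Fin n))).toSphere

/-- The growth constant of the set `F`: the least `A ≥ 1` with `|F ∩ B(y, r)| ≤ A δ^(n-m) r^m` for all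
points `y` and all radii `δ ≤ r ≤ 1`. -/
noncomputable def growthConst {n : ℕ} (m δ : ℝ) (F : Set (EuclideanSpace ℝ (Fin n))) : ℝ≥0∞ :=
  max 1 (⨆ (y : EuclideanSpace ℝ (Fin n)) (r : ℝ) (_ : δ ≤ r) (_ : r ≤ 1),
    volume (F ∩ closedBall y r) / ENNReal.ofReal (δ ^ ((n : ℝ) - m) * r ^ m))

/-- The loss at the point `x`: the power `m - 1` of the growth constant of the superlevel set
`{|f| ≥ |f x| / 2}`, or the loss of Wolff's bound if that is smaller. -/
noncomputable def loss {n : ℕ} (m δ : ℝ) (f : EuclideanSpace ℝ (Fin n) → ℝ)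
    (x : EuclideanSpace ℝ (Fin n)) : ℝ≥0∞ :=
  min (growthConst m δ {y | ‖f x‖ₑ ≤ 2 * ‖f y‖ₑ} ^ (m - 1))
    (ENNReal.ofReal (δ ^ (-(((n : ℝ) - 2) / 2))))

theorem one_le_growthConst {n : ℕ} (m δ : ℝ) (F : Set (EuclideanSpace ℝ (Fin n))) :
    1 ≤ growthConst m δ F := le_max_left _ _

theorem growthConst_mono {n : ℕ} (m δ : ℝ) {F G : Set (EuclideanSpace ℝ (Fin n))} (h : F ⊆ G) :
    growthConst m δ F ≤ growthConst m δ G := by
  unfold growthConst
  gcongr

theorem growthConst_congr {n : ℕ} (m δ : ℝ) {F G : Set (EuclideanSpace ℝ (Fin n))}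
    (h : F =ᵐ[volume] G) : growthConst m δ F = growthConst m δ G := by
  unfold growthConst
  have h1 : ∀ (y : EuclideanSpace ℝ (Fin n)) (r : ℝ),
      volume (F ∩ closedBall y r) = volume (G ∩ closedBall y r) := fun y r =>
    measure_congr (h.inter (Filter.EventuallyEq.refl _ _))
  simp_rw [h1]

theorem growthConst_spec {n : ℕ} {m δ : ℝ} (hδ : 0 < δ) {F : Set (EuclideanSpace ℝ (Fin n))}
    (hF : growthConst m δ F ≠ ∞) (y : EuclideanSpace ℝ (Fin n)) (r : ℝ) (hr : δ ≤ r) (hr1 : r ≤ 1) :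
    volume (F ∩ closedBall y r) ≤
      ENNReal.ofReal ((growthConst m δ F).toReal * δ ^ ((n : ℝ) - m) * r ^ m) := by
  have hr0 : 0 < r := by linarith
  have hb : 0 < δ ^ ((n : ℝ) - m) * r ^ m := by positivity
  have h1 : volume (F ∩ closedBall y r) / ENNReal.ofReal (δ ^ ((n : ℝ) - m) * r ^ m) ≤
      growthConst m δ F := by
    refine le_trans ?_ (le_max_right _ _)
    exact le_iSup₂_of_le y r (le_iSup₂_of_le hr hr1 le_rfl)
  rw [ENNReal.div_le_iff (ENNReal.ofReal_pos.2 hb).ne' ENNReal.ofReal_ne_top] at h1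
  rw [mul_assoc, ENNReal.ofReal_mul ENNReal.toReal_nonneg, ENNReal.ofReal_toReal hF]
  exact h1

theorem one_le_loss {n : ℕ} (hn : 2 ≤ n) {m δ : ℝ} (hm : 1 ≤ m) (hδ : 0 < δ) (hδ1 : δ < 1)
    (f : EuclideanSpace ℝ (Fin n) → ℝ) (x : EuclideanSpace ℝ (Fin n)) : 1 ≤ loss m δ f x := by
  refine le_min ?_ ?_
  · calc (1 : ℝ≥0∞) = 1 ^ (m - 1) := (ENNReal.one_rpow _).symm
      _ ≤ _ := ENNReal.rpow_le_rpow (one_le_growthConst _ _ _) (by linarith)
  · rw [ENNReal.one_le_ofReal]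
    apply Real.one_le_rpow_of_pos_of_le_one_of_nonpos hδ hδ1.le
    have : (2 : ℝ) ≤ n := by exact_mod_cast hn
    linarith

/-- The case of Borel functions. -/
theorem borel (d k : ℕ) (hd2 : 2 ≤ d) (hk : k + 2 = d + 1) (ε : ℝ) (hε : 0 < ε) (m : ℝ)
    (hm : m = min (((d + 1 : ℕ) : ℝ) / 2) 2) :
    ∃ C : ℝ, 0 < C ∧ ∀ δ : ℝ, 0 < δ → δ < 1 →
      ∀ f : EuclideanSpace ℝ (Fin (d + 1)) → ℝ, Measurable f →
      ∫⁻ e : sphere (0 : EuclideanSpace ℝ (Fin (d + 1))) 1,
          kakeyaMax δ f (e : EuclideanSpace ℝ (Fin (d + 1))) ^ (k + 2) ∂(surf (d + 1)) ≤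
        ENNReal.ofReal (C * δ ^ (-ε)) * ∫⁻ x, ‖f x‖ₑ ^ (k + 2) * loss m δ f x := by
  have hdr : (2 : ℝ) ≤ d := by exact_mod_cast hd2
  have hm1 : 1 < m := by
    rw [hm]
    apply lt_min
    · push_cast
      linarith
    · norm_num
  have hε3 : 0 < ε / 3 := by positivity
  obtain ⟨C1, hC1, hwts⟩ := H74.TH.wts d hd2 k hε3
  obtain ⟨C2, hC2, hlevels⟩ := H74.TH.levels d hd2 k hε3
  obtain ⟨C3, hC3, hwolff⟩ := H74.TH.wolff d hd2 k hk hε3
  obtain ⟨C4, hC4, hpiece⟩ := H74.TH.piece_weak d hd2 k hk m hm hε3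
  refine ⟨C1 * (C2 * (C3 + C4)), by positivity, ?_⟩
  intro δ hδ hδ1 f hf
  have hδε : 1 ≤ δ ^ (-(ε / 3)) := by
    apply Real.one_le_rpow_of_pos_of_le_one_of_nonpos hδ hδ1.le
    linarith
  set g : EuclideanSpace ℝ (Fin (d + 1)) → ℝ≥0∞ := fun x => ‖f x‖ₑ with hg
  have hgm : Measurable g := hf.enorm
  set Ψ : ℝ≥0∞ := ∫⁻ x, ‖f x‖ₑ ^ (k + 2) * loss m δ f x with hΨ
  have hΦΨ : ∫⁻ x, g x ^ (k + 2) ≤ Ψ := by
    refine lintegral_mono fun x => ?_
    exact le_mul_of_one_le_right' (one_le_loss (by omega) hm1.le hδ hδ1 f x)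
  have hK1 : 1 ≤ (C3 + C4) * δ ^ (-(ε / 3)) :=
    one_le_mul_of_one_le_of_one_le (by linarith) hδε
  have hlev : ∀ (s : ℝ), 0 < s → ∀ (l : ℝ), 0 < l →
      ∀ D : Set (sphere (0 : EuclideanSpace ℝ (Fin (d + 1))) 1),
      (∀ x ∈ D, ∀ y ∈ D, dist x y ≤ 1) →
      (∀ e ∈ D, ENNReal.ofReal l < H74.TD.kmx δ (H74.TH.piece g s)
        (e : EuclideanSpace ℝ (Fin (d + 1)))) →
      (volume : Measure (EuclideanSpace ℝ (Fin (d + 1)))).toSphere D *
        ENNReal.ofReal (l ^ (k + 2)) ≤ ENNReal.ofReal ((C3 + C4) * δ ^ (-(ε / 3))) * Ψ := by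
    intro s hs l hl D hD hDl
    set G : ℝ≥0∞ := ∫⁻ x, H74.TH.piece g s x ^ (k + 2) with hG
    set L : Set (EuclideanSpace ℝ (Fin (d + 1))) := {y | ENNReal.ofReal s ≤ g y} with hL
    set W : ℝ≥0∞ := min (growthConst m δ L ^ (m - 1))
      (ENNReal.ofReal (δ ^ (-((((d + 1 : ℕ) : ℝ) - 2) / 2)))) with hW
    have hWG : W * G ≤ Ψ := by
      rw [hG, ← lintegral_const_mul _ ((H74.TH.piece_meas hgm s).pow_const _)]
      refine lintegral_mono fun x => ?_
      by_cases hx : x ∈ {x | ENNReal.ofReal s ≤ g x ∧ g x < ENNReal.ofReal (2 * s)}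
      · have hgx : H74.TH.piece g s x = g x := by
          unfold H74.TH.piece
          rw [indicator_of_mem hx]
        rw [hgx, mul_comm]
        refine mul_le_mul' le_rfl (min_le_min ?_ le_rfl)
        refine ENNReal.rpow_le_rpow (growthConst_mono m δ ?_) (by linarith)
        intro y hy
        have h1 : g x < 2 * ENNReal.ofReal s := by
          have := hx.2
          rwa [ENNReal.ofReal_mul (by norm_num), ENNReal.ofReal_ofNat] at this
        exact h1.le.trans (mul_le_mul' le_rfl hy)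
      · have hgx : H74.TH.piece g s x = 0 := by
          unfold H74.TH.piece
          rw [indicator_of_notMem hx]
        rw [hgx, zero_pow (by omega), mul_zero]
        exact zero_le
    have hWK : (volume : Measure (EuclideanSpace ℝ (Fin (d + 1)))).toSphere D *
        ENNReal.ofReal (l ^ (k + 2)) ≤
        ENNReal.ofReal ((C3 + C4) * δ ^ (-(ε / 3))) * (W * G) := by
      rcases le_total (growthConst m δ L ^ (m - 1))
        (ENNReal.ofReal (δ ^ (-((((d + 1 : ℕ) : ℝ) - 2) / 2)))) with hc | hc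
      · -- the growth
        have hWe : W = growthConst m δ L ^ (m - 1) := min_eq_left hc
        have hfin : growthConst m δ L ≠ ∞ := by
          have h1 := hc.trans_lt ENNReal.ofReal_lt_top
          rw [ENNReal.rpow_lt_top_iff_of_pos (by linarith)] at h1
          exact h1.ne
        have hA1 : 1 ≤ (growthConst m δ L).toReal := by
          rw [← ENNReal.toReal_one]
          exact (ENNReal.toReal_le_toReal ENNReal.one_ne_top hfin).2 (one_le_growthConst _ _ _)
        have h2 := hpiece δ hδ hδ1 g hgm s hs (growthConst m δ L).toReal hA1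
          (fun x r hr hr1 => growthConst_spec hδ hfin x r hr hr1) l hl D hD hDl
        refine h2.trans ?_
        have h3 : ENNReal.ofReal (C4 * (growthConst m δ L).toReal ^ (m - 1) * δ ^ (-(ε / 3))) =
            ENNReal.ofReal (C4 * δ ^ (-(ε / 3))) * W := by
          rw [hWe, mul_right_comm, ENNReal.ofReal_mul (by positivity),
            ← ENNReal.ofReal_rpow_of_pos (by linarith), ENNReal.ofReal_toReal hfin]
        rw [h3, mul_assoc]
        refine mul_le_mul' (ENNReal.ofReal_le_ofReal ?_) le_rfl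
        gcongr
        linarith
      · -- Wolff's bound
        have hWe : W = ENNReal.ofReal (δ ^ (-((((d + 1 : ℕ) : ℝ) - 2) / 2))) := min_eq_right hc
        have h2 := hwolff δ hδ hδ1 g hgm s hs l hl D hDl
        refine h2.trans ?_
        have h3 : ENNReal.ofReal (C3 * (δ ^ (-(((d : ℝ) - 1) / 2)) * δ ^ (-(ε / 3)))) =
            ENNReal.ofReal (C3 * δ ^ (-(ε / 3))) * W := by
          have e1 : (((d + 1 : ℕ) : ℝ) - 2) / 2 = ((d : ℝ) - 1) / 2 := by
            push_cast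
            ring
          rw [hWe, e1, ← ENNReal.ofReal_mul (by positivity)]
          congr 1
          ring
        rw [h3, mul_assoc]
        refine mul_le_mul' (ENNReal.ofReal_le_ofReal ?_) le_rfl
        gcongr
        linarith
    exact hWK.trans (mul_le_mul' le_rfl hWG)
  have h1 := hlevels δ hδ hδ1 g hgm Ψ hΦΨ _ hK1 hlev
  have hK2 : 1 ≤ C2 * ((C3 + C4) * δ ^ (-(ε / 3))) * δ ^ (-(ε / 3)) :=
    one_le_mul_of_one_le_of_one_le (one_le_mul_of_one_le_of_one_le hC2 hK1) hδε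
  have h2 := hwts δ hδ hδ1 g hgm.aemeasurable Ψ hΦΨ _ hK2 h1
  refine le_trans (le_of_eq rfl) (h2.trans (le_of_eq ?_))
  congr 2
  have e1 : δ ^ (-ε) = δ ^ (-(ε / 3)) * δ ^ (-(ε / 3)) * δ ^ (-(ε / 3)) := by
    rw [← Real.rpow_add hδ, ← Real.rpow_add hδ]
    congr 1
    ring
  rw [e1]
  ring

theorem result (n : ℕ) (hn : 3 ≤ n) (ε : ℝ) (hε : 0 < ε) (m : ℝ) (hm : m = min ((n : ℝ) / 2) 2) :
    ∃ C : ℝ, 0 < C ∧ ∀ δ : ℝ, 0 < δ → δ < 1 →
      ∀ f : EuclideanSpace ℝ (Fin n) → ℝ, AEMeasurable f volume →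
      ∫⁻ e : sphere (0 : EuclideanSpace ℝ (Fin n)) 1,
          kakeyaMax δ f (e : EuclideanSpace ℝ (Fin n)) ^ n ∂(surf n) ≤
        ENNReal.ofReal (C * δ ^ (-ε)) * ∫⁻ x, ‖f x‖ₑ ^ n * loss m δ f x := by
  obtain ⟨d, rfl⟩ : ∃ d, n = d + 1 := ⟨n - 1, by omega⟩
  obtain ⟨k, hk⟩ : ∃ k, k + 2 = d + 1 := ⟨d - 1, by omega⟩
  obtain ⟨C, hC, h⟩ := borel d k (by omega) hk ε hε m hm
  rw [hk] at h
  refine ⟨C, hC, ?_⟩
  intro δ hδ hδ1 f hf
  have hfg := hf.ae_eq_mk
  have hgc : ∀ s : ℝ≥0∞, growthConst m δ {y | s ≤ 2 * ‖f y‖ₑ} =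
      growthConst m δ {y | s ≤ 2 * ‖hf.mk f y‖ₑ} := by
    intro s
    apply growthConst_congr
    filter_upwards [hfg] with y hy
    have : (s ≤ 2 * ‖f y‖ₑ) = (s ≤ 2 * ‖hf.mk f y‖ₑ) := by rw [hy]
    exact this
  have h1 : ∀ e : EuclideanSpace ℝ (Fin (d + 1)), kakeyaMax δ f e = kakeyaMax δ (hf.mk f) e := by
    intro e
    unfold kakeyaMax
    congr 1
    ext a
    congr 1
    apply lintegral_congr_ae
    filter_upwards [ae_restrict_of_ae hfg] with y hy
    rw [hy]
  have h2 : ∫⁻ x, ‖f x‖ₑ ^ (d + 1) * loss m δ f x =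
      ∫⁻ x, ‖hf.mk f x‖ₑ ^ (d + 1) * loss m δ (hf.mk f) x := by
    apply lintegral_congr_ae
    filter_upwards [hfg] with x hx
    unfold loss
    rw [hgc, hx]
  rw [h2]
  simp_rw [h1]
  exact h δ hδ hδ1 (hf.mk f) hf.measurable_mk

/-- A change of the exponent of growth. -/
theorem change_exp {n : ℕ} {δ A t m r : ℝ} (hδ : 0 < δ) (hr : δ ≤ r) (hr1 : r ≤ 1) (hA : 0 ≤ A) :
    A * δ ^ ((n : ℝ) - t) * r ^ t ≤
      (A * δ ^ (-(max (t - m) 0))) * (δ ^ ((n : ℝ) - m) * r ^ m) := by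
  have hr0 : 0 < r := by linarith
  rcases le_total t m with h | h
  · have h0 : max (t - m) 0 = 0 := max_eq_right (by linarith)
    have h1 : δ ^ (m - t) ≤ r ^ (m - t) := Real.rpow_le_rpow hδ.le hr (by linarith)
    have h2 : δ ^ ((n : ℝ) - t) = δ ^ ((n : ℝ) - m) * δ ^ (m - t) := by
      rw [← Real.rpow_add hδ]
      congr 1
      ring
    have h3 : r ^ m = r ^ t * r ^ (m - t) := by
      rw [← Real.rpow_add hr0]
      congr 1
      ring
    rw [h0, neg_zero, Real.rpow_zero, mul_one, h2, h3]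
    calc A * (δ ^ ((n : ℝ) - m) * δ ^ (m - t)) * r ^ t
        = A * (δ ^ ((n : ℝ) - m) * (r ^ t * δ ^ (m - t))) := by ring
      _ ≤ A * (δ ^ ((n : ℝ) - m) * (r ^ t * r ^ (m - t))) := by gcongr
  · have h0 : max (t - m) 0 = t - m := max_eq_left (by linarith)
    have h2 : δ ^ ((n : ℝ) - t) = δ ^ (-(t - m)) * δ ^ ((n : ℝ) - m) := by
      rw [← Real.rpow_add hδ]
      congr 1
      ring
    have h3 : r ^ t ≤ r ^ m := Real.rpow_le_rpow_of_exponent_ge hr0 hr1 h
    rw [h0, h2]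
    calc A * (δ ^ (-(t - m)) * δ ^ ((n : ℝ) - m)) * r ^ t
        ≤ A * (δ ^ (-(t - m)) * δ ^ ((n : ℝ) - m)) * r ^ m := by gcongr
      _ = _ := by ring

/-- Corollary: functions with supports of dimension at most `t`. -/
theorem supports (n : ℕ) (hn : 3 ≤ n) (ε : ℝ) (hε : 0 < ε) (m : ℝ)
    (hm : m = min ((n : ℝ) / 2) 2) :
    ∃ C : ℝ, 0 < C ∧ ∀ (t δ A : ℝ), 0 < δ → δ < 1 → 1 ≤ A →
      ∀ E : Set (EuclideanSpace ℝ (Fin n)),
      (∀ (x : EuclideanSpace ℝ (Fin n)) (r : ℝ), δ ≤ r → r ≤ 1 →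
        volume (E ∩ closedBall x r) ≤ ENNReal.ofReal (A * δ ^ ((n : ℝ) - t) * r ^ t)) →
      ∀ f : EuclideanSpace ℝ (Fin n) → ℝ, AEMeasurable f volume → (∀ x, x ∉ E → f x = 0) →
      ∫⁻ e : sphere (0 : EuclideanSpace ℝ (Fin n)) 1,
          kakeyaMax δ f (e : EuclideanSpace ℝ (Fin n)) ^ n ∂(surf n) ≤
        ENNReal.ofReal (C * (A * δ ^ (-(max (t - m) 0))) ^ (m - 1) * δ ^ (-ε)) *
          ∫⁻ x, ‖f x‖ₑ ^ n := by
  have hnr : (3 : ℝ) ≤ n := by exact_mod_cast hn
  have hm1 : 1 < m := by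
    rw [hm]
    apply lt_min
    · linarith
    · norm_num
  obtain ⟨C, hC, h⟩ := result n hn ε hε m hm
  refine ⟨C, hC, ?_⟩
  intro t δ A hδ hδ1 hA E hE f hf hfE
  set A' : ℝ := A * δ ^ (-(max (t - m) 0)) with hA'
  have hA1 : 1 ≤ A' := by
    refine one_le_mul_of_one_le_of_one_le hA ?_
    apply Real.one_le_rpow_of_pos_of_le_one_of_nonpos hδ hδ1.le
    have := le_max_right (t - m) 0
    linarith
  have hgc : growthConst m δ E ≤ ENNReal.ofReal A' := by
    unfold growthConst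
    refine max_le (by rw [ENNReal.one_le_ofReal]; exact hA1) ?_
    refine iSup₂_le fun y r => iSup₂_le fun hr hr1 => ?_
    have hr0 : 0 < r := by linarith
    have hb : 0 < δ ^ ((n : ℝ) - m) * r ^ m := by positivity
    rw [ENNReal.div_le_iff (ENNReal.ofReal_pos.2 hb).ne' ENNReal.ofReal_ne_top,
      ← ENNReal.ofReal_mul (by linarith)]
    exact (hE y r hr hr1).trans (ENNReal.ofReal_le_ofReal (change_exp hδ hr hr1 (by linarith)))
  refine (h δ hδ hδ1 f hf).trans ?_
  have h1 : ∫⁻ x, ‖f x‖ₑ ^ n * loss m δ f x ≤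
      ENNReal.ofReal (A' ^ (m - 1)) * ∫⁻ x, ‖f x‖ₑ ^ n := by
    rw [← lintegral_const_mul'' _ (hf.enorm.pow_const _)]
    refine lintegral_mono fun x => ?_
    by_cases hx : f x = 0
    · simp [hx, show n ≠ 0 by omega]
    · rw [mul_comm]
      refine mul_le_mul' ?_ le_rfl
      refine (min_le_left _ _).trans ?_
      rw [← ENNReal.ofReal_rpow_of_pos (by linarith)]
      refine ENNReal.rpow_le_rpow ((growthConst_mono m δ ?_).trans hgc) (by linarith)
      intro y hy
      by_contra hyE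
      have hfx : ‖f x‖ₑ ≤ 2 * ‖f y‖ₑ := hy
      rw [hfE y hyE] at hfx
      simp at hfx
      exact hx hfx
  calc ENNReal.ofReal (C * δ ^ (-ε)) * ∫⁻ x, ‖f x‖ₑ ^ n * loss m δ f x
      ≤ ENNReal.ofReal (C * δ ^ (-ε)) * (ENNReal.ofReal (A' ^ (m - 1)) * ∫⁻ x, ‖f x‖ₑ ^ n) := by
        gcongr
    _ = _ := by
        rw [← mul_assoc, ← ENNReal.ofReal_mul (by positivity)]
        congr 2
        ring

end Pool.Agent.Results.MP_5168f5_an.SmallSupports
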