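import Pool.Agent.H74.Kak.Num

/-!
# The Kakeya maximal function on sparse supports

Let `n ≥ 2`.  Let `E` be a measurable subset of `ℝⁿ` and let `δ, ρ, A, α` be real numbers with
`0 < δ`, `2δ ≤ ρ ≤ 1`, `0 ≤ A` and `1 ≤ α ≤ n`, such that

  `|E ∩ B(x, r)| ≤ A δⁿ (r / ρ)^α`  for all points `x` and all radii `ρ ≤ r ≤ 1`.

Then every measurable `f` that vanishes outside `E` satisfies

  `‖f_δ^*‖ₙⁿ ≤ C A^(n-1) (1 + δ^(n-1) ρ^(-(n-2+α)) (1 + log (1/ρ))) ‖f‖ₙⁿ`,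

the norms being those of `Lⁿ(S^{n-1})` and `Lⁿ(ℝⁿ)`, with a constant `C` that depends on `n` only.

Two cases.

* `α = 1`, `ρ = 2δ`: the estimate of the Kakeya maximal function conjecture holds, with one
  logarithm in place of `δ^(-ε)`, for all functions supported in sets `E` with
  `|E ∩ B(x, r)| ≤ A δ^(n-1) r` for `2δ ≤ r ≤ 1`.
* `α = n`, `ρ = 2 √δ` : the estimate holds with one logarithm for all functions supported in the
  `δ`-neighbourhood of a set whose points have mutual distances at least `√δ` (`A` is then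
  a constant that depends on `n` only).
-/

open MeasureTheory Metric Set
open scoped ENNReal NNReal Pointwise

namespace Pool.Agent.Results.MP_5168f5_an.SparseSupports

/-- The tube of length one and radius `δ` with axis direction `e` and centre `a`. -/
def tube {n : ℕ} (δ : ℝ) (e a : EuclideanSpace ℝ (Fin n)) : Set (EuclideanSpace ℝ (Fin n)) :=
  {y | |inner ℝ (y - a) e| ≤ 1 / 2 ∧ ‖(y - a) - (inner ℝ (y - a) e : ℝ) • e‖ ≤ δ}

/-- The Kakeya maximal function, with values in `[0, ∞]`. -/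
noncomputable def kakeyaMax {n : ℕ} (δ : ℝ) (f : EuclideanSpace ℝ (Fin n) → ℝ)
    (e : EuclideanSpace ℝ (Fin n)) : ℝ≥0∞ :=
  ⨆ a : EuclideanSpace ℝ (Fin n),
    (volume (tube δ e a))⁻¹ * ∫⁻ y in tube δ e a, ‖f y‖ₑ

/-- The surface measure of the unit sphere. -/
noncomputable def surf (n : ℕ) : Measure (sphere (0 : EuclideanSpace ℝ (Fin n)) 1) :=
  (volume : Measure (EuclideanSpace ℝ (Fin n))).toSphere

/-- Growth for radii up to one gives growth for radii up to four. -/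
lemma growth_four (n : ℕ) : ∃ N : ℕ, 1 ≤ N ∧ ∀ (δ ρ A α : ℝ), 0 < δ → 0 < ρ → ρ ≤ 1 → 0 ≤ A →
    0 ≤ α → ∀ E : Set (EuclideanSpace ℝ (Fin n)),
      (∀ (x : EuclideanSpace ℝ (Fin n)) (r : ℝ), ρ ≤ r → r ≤ 1 →
        volume (E ∩ closedBall x r) ≤ ENNReal.ofReal (A * δ ^ n * (r / ρ) ^ α)) →
      ∀ (x : EuclideanSpace ℝ (Fin n)) (r : ℝ), ρ ≤ r → r ≤ 4 →
        volume (E ∩ closedBall x r) ≤ ENNReal.ofReal ((N * A) * δ ^ n * (r / ρ) ^ α) := by
  obtain ⟨t, -, htf, htc⟩ := (isCompact_closedBall (0 : EuclideanSpace ℝ (Fin n)) 4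
    ).finite_cover_balls (e := 1) (by norm_num)
  set T := htf.toFinset with hT
  refine ⟨T.card + 1, by omega, ?_⟩
  intro δ ρ A α hδ hρ0 hρ1 hA hα E hE x r hr hr4
  have hN : (1 : ℝ) ≤ ((T.card + 1 : ℕ) : ℝ) := by
    push_cast
    linarith [show (0 : ℝ) ≤ T.card from Nat.cast_nonneg _]
  rcases le_or_gt r 1 with h1 | h1
  · refine (hE x r hr h1).trans (ENNReal.ofReal_le_ofReal ?_)
    have : 0 ≤ (r / ρ) ^ α := Real.rpow_nonneg (div_nonneg (hρ0.le.trans hr) hρ0.le) _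
    have : A ≤ ((T.card + 1 : ℕ) : ℝ) * A := by nlinarith
    gcongr
  · have hsub : E ∩ closedBall x r ⊆ ⋃ y ∈ T, E ∩ closedBall (x + y) 1 := by
      rintro z ⟨hzE, hz⟩
      have hz' : z - x ∈ closedBall (0 : EuclideanSpace ℝ (Fin n)) 4 := by
        rw [mem_closedBall, dist_zero_right, ← dist_eq_norm]
        exact (mem_closedBall.1 hz).trans hr4
      obtain ⟨y, hy, hzy⟩ := mem_iUnion₂.1 (htc hz')
      refine mem_iUnion₂.2 ⟨y, htf.mem_toFinset.2 hy, hzE, ?_⟩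
      rw [mem_closedBall, dist_eq_norm]
      rw [mem_ball, dist_eq_norm] at hzy
      have : z - (x + y) = z - x - y := by abel
      rw [this]
      exact hzy.le
    have hone : ∀ y, volume (E ∩ closedBall (x + y) 1) ≤
        ENNReal.ofReal (A * δ ^ n * (r / ρ) ^ α) := by
      intro y
      refine (hE (x + y) 1 hρ1 le_rfl).trans (ENNReal.ofReal_le_ofReal ?_)
      gcongr
    calc volume (E ∩ closedBall x r)
        ≤ volume (⋃ y ∈ T, E ∩ closedBall (x + y) 1) := measure_mono hsub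
      _ ≤ ∑ y ∈ T, volume (E ∩ closedBall (x + y) 1) := measure_biUnion_finset_le _ _
      _ ≤ ∑ _y ∈ T, ENNReal.ofReal (A * δ ^ n * (r / ρ) ^ α) :=
          Finset.sum_le_sum fun y _ => hone y
      _ = T.card * ENNReal.ofReal (A * δ ^ n * (r / ρ) ^ α) := by
          rw [Finset.sum_const, nsmul_eq_mul]
      _ = ENNReal.ofReal (T.card * (A * δ ^ n * (r / ρ) ^ α)) := by
          rw [ENNReal.ofReal_mul (p := (T.card : ℝ)) (by positivity), ENNReal.ofReal_natCast]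
      _ ≤ _ := by
          apply ENNReal.ofReal_le_ofReal
          have : 0 ≤ A * δ ^ n * (r / ρ) ^ α :=
            mul_nonneg (by positivity)
              (Real.rpow_nonneg (div_nonneg (hρ0.le.trans hr) hρ0.le) _)
          push_cast
          nlinarith

theorem result (n : ℕ) (hn : 2 ≤ n) :
    ∃ C : ℝ, 0 < C ∧ ∀ (δ ρ A α : ℝ), 0 < δ → 2 * δ ≤ ρ → ρ ≤ 1 → 0 ≤ A → 1 ≤ α → α ≤ n →
      ∀ E : Set (EuclideanSpace ℝ (Fin n)), MeasurableSet E →
      (∀ (x : EuclideanSpace ℝ (Fin n)) (r : ℝ), ρ ≤ r → r ≤ 1 →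
        volume (E ∩ closedBall x r) ≤ ENNReal.ofReal (A * δ ^ n * (r / ρ) ^ α)) →
      ∀ f : EuclideanSpace ℝ (Fin n) → ℝ, AEMeasurable f volume → (∀ x, x ∉ E → f x = 0) →
      ∫⁻ e : sphere (0 : EuclideanSpace ℝ (Fin n)) 1,
          kakeyaMax δ f (e : EuclideanSpace ℝ (Fin n)) ^ n ∂(surf n) ≤
        ENNReal.ofReal (C * A ^ (n - 1) *
          (1 + δ ^ (n - 1) * ρ ^ (-((n : ℝ) - 2 + α)) * (1 + Real.log (1 / ρ)))) *
        ∫⁻ x, ‖f x‖ₑ ^ n := by
  obtain ⟨k, rfl⟩ : ∃ k, n = k + 1 + 1 := ⟨n - 2, by omega⟩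
  obtain ⟨N, hN, hgr⟩ := growth_four (k + 1 + 1)
  have hN0 : (0 : ℝ) < N := by exact_mod_cast hN
  refine ⟨H74.Kak.C0 k * N ^ (k + 1), mul_pos (H74.Kak.C0_pos k) (by positivity), ?_⟩
  intro δ ρ A α hδ hρ hρ1 hA hα hα2 E hEm hE f hf hfE
  have hρ0 : 0 < ρ := by linarith
  have hα2' : α ≤ k + 2 := by
    push_cast at hα2
    linarith
  obtain ⟨J, hJ1, hJ2, hJ3⟩ := H74.Kak.exists_J hρ0 hρ1
  have hE4 := hgr δ ρ A α hδ hρ0 hρ1 hA (by linarith) E hE
  have hA' : 0 ≤ (N : ℝ) * A := by positivity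
  have h1 := H74.Kak.pre_bound (k := k) (α := α) hδ hρ hρ1 hA' hEm hE4 hf hfE hJ1 hJ2
  have h2 := H74.Kak.const_le (k := k) hδ hρ0 hρ1 hA' hα hα2' hJ2 hJ3
  refine h1.trans (mul_le_mul' (ENNReal.ofReal_le_ofReal (h2.trans_eq ?_)) le_rfl)
  have e1 : k + 1 + 1 - 1 = k + 1 := rfl
  have e2 : (((k + 1 + 1 : ℕ) : ℝ) - 2 + α) = k + α := by
    push_cast
    ring
  rw [e1, e2, mul_pow]
  ring

end Pool.Agent.Results.MP_5168f5_an.SparseSupports
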