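import Pool.Agent.H28.SM.Final

set_option autoImplicit false

/-!
# MP_5168f5_an: the Kakeya maximal estimate near the leaves of a two-dimensional foliation

Let `n ≥ 3`, let `F` be a smooth map from an open set of `ℝ^n` to `ℝ^(n-2)` whose derivative is
surjective at every point of the compact set `K`.  The level sets of `F` foliate a neighbourhood of
`K` by surfaces (two-dimensional leaves).  The theorem says that the estimate conjectured in Q1, with
the full exponent `n` and with the loss `δ^(-ε)`, holds for the maximal function in which `f` is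
first restricted to the `δ`-neighbourhood `{y ∈ K : |F y - c| ≤ δ}` of one leaf, and one then takes
the supremum over all tubes in the direction `e` **and over all leaves** `c`.
In particular, for all functions `f` supported in the `δ`-neighbourhood of one leaf, the
Kakeya maximal estimate of Q1 holds, with a constant that does not depend on the leaf.

## The proof

* Charts.  Near a point of `K` the leaves are graphs `u ↦ c + Φ(u, c)` over a fixed plane.  A tube
  whose direction is far from the plane meets a leaf neighbourhood in a set of diameter `O(δ)`, and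
  this part is handled by a direct Schur estimate on the sphere.
* Taylor.  Given `ε`, choose `k ~ 1/ε` and cut the plane into squares of side `δ^(1/(k+1))`.  On
  such a square every leaf is within `O(δ)` of a polynomial graph of degree `k`, with bounded
  coefficients.
* Counting.  For a polynomial graph (of degree `D`) and tubes with `δ`-separated directions, a TT*
  argument of Cordoba type is used.  The directions are enumerated by the slope in the plane and by
  the slopes transversal to it.  A tube which stays for a length `λ` near the leaf must be tangent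
  to it there, and a Markov inequality shows that two tubes with nearly the same slope in the plane
  (and different transversal slopes) can overlap near the leaf only in a few short pieces, whose
  lengths and number are bounded in terms of the difference of the slopes; the number of
  directions with a given contact is bounded by the number of lattice points near a polynomial
  curve.  Summing over the dyadic lengths of the pieces costs `(log 1/δ)^2`.
* The supremum over tubes and over leaves is linearised by a choice for every direction cell.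
-/

open Set MeasureTheory Metric ENNReal
open scoped ContDiff

namespace Pool.Agent.Results.MP_5168f5_an.SurfaceMaximal

/-- The closed tube `T_e^δ(a)` of length `1` and radius `δ` with centre `a` and axis direction
`e`. -/
def tube {n : ℕ} (δ : ℝ) (e a : EuclideanSpace ℝ (Fin n)) : Set (EuclideanSpace ℝ (Fin n)) :=
  {y | |inner ℝ (y - a) e| ≤ 1 / 2 ∧ ‖(y - a) - (inner ℝ (y - a) e : ℝ) • e‖ ≤ δ}

/-- The Kakeya maximal function: the supremum over `a` of the average of `|f|` over `T_e^δ(a)`. -/
noncomputable def kakeyaMax {n : ℕ} (δ : ℝ) (f : EuclideanSpace ℝ (Fin n) → ℝ)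
    (e : EuclideanSpace ℝ (Fin n)) : ℝ≥0∞ :=
  ⨆ a : EuclideanSpace ℝ (Fin n), (volume (tube δ e a))⁻¹ * ∫⁻ y in tube δ e a, ‖f y‖ₑ

/-- The surface measure on the unit sphere of `ℝ^n`. -/
noncomputable def surf (n : ℕ) : Measure (sphere (0 : EuclideanSpace ℝ (Fin n)) 1) :=
  (volume : Measure (EuclideanSpace ℝ (Fin n))).toSphere

/-- The part of `K` in the `δ`-neighbourhood of the leaf `F = c`. -/
def leafNbhd {n m : ℕ} (F : EuclideanSpace ℝ (Fin n) → EuclideanSpace ℝ (Fin m))
    (K : Set (EuclideanSpace ℝ (Fin n))) (δ : ℝ) (c : EuclideanSpace ℝ (Fin m)) :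
    Set (EuclideanSpace ℝ (Fin n)) :=
  {y | y ∈ K ∧ ‖F y - c‖ ≤ δ}

theorem aux (m : ℕ) (hm : 1 ≤ m) (U : Set (EuclideanSpace ℝ (Fin (m + 2)))) (hU : IsOpen U)
    (F : EuclideanSpace ℝ (Fin (m + 2)) → EuclideanSpace ℝ (Fin m)) (hF : ContDiffOn ℝ ∞ F U)
    (K : Set (EuclideanSpace ℝ (Fin (m + 2)))) (hK : IsCompact K) (hKU : K ⊆ U)
    (hreg : ∀ z ∈ K, Function.Surjective (fderiv ℝ F z)) (ε : ℝ) (hε : 0 < ε) :
    ∃ C : ℝ, 0 < C ∧ ∀ (δ : ℝ) (f : EuclideanSpace ℝ (Fin (m + 2)) → ℝ), 0 < δ → δ < 1 →
      AEMeasurable f volume →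
      ∫⁻ e : sphere (0 : EuclideanSpace ℝ (Fin (m + 2))) 1,
          (⨆ c : EuclideanSpace ℝ (Fin m),
            kakeyaMax δ ((leafNbhd F K δ c).indicator f) e) ^ (m + 2) ∂(surf (m + 2)) ≤
        ENNReal.ofReal (C * δ ^ (-ε)) * ∫⁻ y in K, ‖f y‖ₑ ^ (m + 2) := by
  classical
  set L : EuclideanSpace ℝ (Fin m) ≃L[ℝ] (Fin m → ℝ) := EuclideanSpace.equiv (Fin m) ℝ with hL
  set F' : EuclideanSpace ℝ (Fin (m + 2)) → (Fin m → ℝ) := fun y => L (F y) with hF'
  have hF's : ∀ k : ℕ, ContDiffOn ℝ (k + 1) F' U := by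
    intro k
    have h1 : ContDiffOn ℝ ((k + 1 : ℕ) : ℕ∞) F U :=
      hF.of_le (by exact_mod_cast le_top)
    have h2 := L.contDiff.comp_contDiffOn (n := (((k + 1 : ℕ) : ℕ∞) : WithTop ℕ∞)) h1
    exact_mod_cast h2
  have hreg' : ∀ z ∈ K, Function.Surjective (fderiv ℝ F' z) := by
    intro z hz
    have hd : DifferentiableAt ℝ F z :=
      ((hF.differentiableOn (by simp)) z (hKU hz)).differentiableAt (hU.mem_nhds (hKU hz))
    have h1 : fderiv ℝ F' z = (L : EuclideanSpace ℝ (Fin m) →L[ℝ] (Fin m → ℝ)).comp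
        (fderiv ℝ F z) := by
      have h2 := (L : EuclideanSpace ℝ (Fin m) →L[ℝ] (Fin m → ℝ)).hasFDerivAt (x := F z)
      exact (h2.comp z hd.hasFDerivAt).fderiv
    rw [h1]
    exact L.surjective.comp (hreg z hz)
  obtain ⟨C, hC, hmain⟩ := Pool.Agent.H28.SM.global_maj hm hU hF's hK hKU hreg' hε
  refine ⟨C, hC, ?_⟩
  intro δ f hδ hδ1 hf
  set f' := hf.mk f with hf'
  have hf'm : Measurable f' := hf.measurable_mk
  have hff' : f =ᵐ[volume] f' := hf.ae_eq_mk
  obtain ⟨G, hGm, hG, hGint⟩ := hmain δ hδ hδ1 (fun y => ‖f' y‖ₑ) hf'm.enorm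
  have hKint : ∫⁻ y in K, ‖f' y‖ₑ ^ (m + 2) = ∫⁻ y in K, ‖f y‖ₑ ^ (m + 2) := by
    apply lintegral_congr_ae
    filter_upwards [ae_restrict_of_ae hff'] with y hy
    rw [hy]
  rw [hKint] at hGint
  refine le_trans (lintegral_mono fun e => ?_) hGint
  rw [ENNReal.iSup_pow]
  apply iSup_le
  intro c
  unfold kakeyaMax
  rw [ENNReal.iSup_pow]
  apply iSup_le
  intro a
  refine le_trans ?_ (hG e a (L c))
  unfold Pool.Agent.H28.SM.avg
  refine pow_le_pow_left' (mul_le_mul' le_rfl ?_) (m + 2)
  apply lintegral_mono_ae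
  filter_upwards [ae_restrict_of_ae hff'] with y hy
  by_cases hy1 : y ∈ leafNbhd F K δ c
  · have hy2 : y ∈ {z | ‖F' z - L c‖ ≤ δ} := by
      show ‖L (F y) - L c‖ ≤ δ
      rw [← map_sub]
      refine le_trans ?_ hy1.2
      rw [pi_norm_le_iff_of_nonneg (norm_nonneg _)]
      intro i
      exact PiLp.norm_apply_le (F y - c) i
    rw [indicator_of_mem hy1, indicator_of_mem hy2, indicator_of_mem hy1.1, hy]
  · rw [indicator_of_notMem hy1, enorm_zero]
    exact zero_le

/-- **The Kakeya maximal estimate near the leaves of a smooth foliation by surfaces.**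
Let `n ≥ 3`, let `F : U → ℝ^(n-2)` be smooth on the open set `U ⊆ ℝ^n`, and let `K ⊆ U` be compact
with `DF(z)` surjective for all `z ∈ K`.  For every `ε > 0` there is `C` such that for all
`0 < δ < 1` and all measurable `f`,
`∫_{S^(n-1)} (sup_c (f 1_{y ∈ K : |F y - c| ≤ δ})^*_δ(e))^n de ≤ C δ^(-ε) ∫_K |f|^n`. -/
theorem result (n : ℕ) (hn : 3 ≤ n) (U : Set (EuclideanSpace ℝ (Fin n))) (hU : IsOpen U)
    (F : EuclideanSpace ℝ (Fin n) → EuclideanSpace ℝ (Fin (n - 2))) (hF : ContDiffOn ℝ ∞ F U)
    (K : Set (EuclideanSpace ℝ (Fin n))) (hK : IsCompact K) (hKU : K ⊆ U)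
    (hreg : ∀ z ∈ K, Function.Surjective (fderiv ℝ F z)) (ε : ℝ) (hε : 0 < ε) :
    ∃ C : ℝ, 0 < C ∧ ∀ (δ : ℝ) (f : EuclideanSpace ℝ (Fin n) → ℝ), 0 < δ → δ < 1 →
      AEMeasurable f volume →
      ∫⁻ e : sphere (0 : EuclideanSpace ℝ (Fin n)) 1,
          (⨆ c : EuclideanSpace ℝ (Fin (n - 2)),
            kakeyaMax δ ((leafNbhd F K δ c).indicator f) e) ^ n ∂(surf n) ≤
        ENNReal.ofReal (C * δ ^ (-ε)) * ∫⁻ y in K, ‖f y‖ₑ ^ n := by
  obtain ⟨m, rfl⟩ : ∃ m, n = m + 2 := ⟨n - 2, by omega⟩
  exact aux m (by omega) U hU F hF K hK hKU hreg ε hε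

end Pool.Agent.Results.MP_5168f5_an.SurfaceMaximal
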